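import Pool.Agent.helper80.SV.Spec

/-!
# Module sv:SPN (MP_b5a345_ag), project of helper80: products of powers of linear forms span
-/

set_option autoImplicit false

namespace Pool.Agent.SV

open MvPolynomial Module

section

variable {ι κ : Type} [Fintype ι] [DecidableEq ι] [Fintype κ] [DecidableEq κ]

theorem SPN_mul {a b : ι →₀ ℕ} {p q : MvPolynomial ι ℕ} (ha : coeff a p ≠ 0)
    (hb : coeff b q ≠ 0) : coeff (a + b) (p * q) ≠ 0 := by
  classical
  rw [coeff_mul]
  have h := Finset.single_le_sum (f := fun x : (ι →₀ ℕ) × (ι →₀ ℕ) => coeff x.1 p * coeff x.2 q)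
    (s := Finset.HasAntidiagonal.antidiagonal (a + b)) (fun _ _ => Nat.zero_le _)
    (show (a, b) ∈ Finset.HasAntidiagonal.antidiagonal (a + b) from
      Finset.HasAntidiagonal.mem_antidiagonal.2 rfl)
  have h2 : 0 < coeff a p * coeff b q :=
    Nat.mul_pos (Nat.pos_of_ne_zero ha) (Nat.pos_of_ne_zero hb)
  exact (lt_of_lt_of_le h2 h).ne'

theorem SPN_pow (B : Finset ι) (n : ℕ) : ∀ m : ι →₀ ℕ, (∀ i, i ∉ B → m i = 0) →
    ∑ i ∈ B, m i = n → coeff m ((∑ j ∈ B, X j : MvPolynomial ι ℕ) ^ n) ≠ 0 := by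
  induction n with
  | zero =>
    intro m h1 h2
    have h3 : m = 0 := by
      ext i
      by_cases hi : i ∈ B
      · exact (Finset.sum_eq_zero_iff.1 h2) i hi
      · exact h1 i hi
    rw [h3, pow_zero, coeff_zero_one]
    exact one_ne_zero
  | succ n ih =>
    intro m h1 h2
    obtain ⟨i, hi, hmi⟩ : ∃ i ∈ B, m i ≠ 0 := by
      by_contra hcon
      push Not at hcon
      rw [Finset.sum_eq_zero hcon] at h2
      omega
    have h3 : m = (m - Finsupp.single i 1) + Finsupp.single i 1 := by
      ext j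
      rw [Finsupp.add_apply, Finsupp.tsub_apply, Finsupp.single_apply]
      split_ifs with h
      · subst h; omega
      · omega
    rw [h3, pow_succ]
    apply SPN_mul
    · apply ih
      · intro j hj
        rw [Finsupp.tsub_apply, h1 j hj, Nat.zero_sub]
      · have h4 : ∑ j ∈ B, m j = ∑ j ∈ B, (m - Finsupp.single i 1 : ι →₀ ℕ) j +
            ∑ j ∈ B, (Finsupp.single i 1 : ι →₀ ℕ) j := by
          rw [← Finset.sum_add_distrib]
          refine Finset.sum_congr rfl fun j _ => ?_
          conv_lhs => rw [h3]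
          rfl
        have h5 : ∑ j ∈ B, (Finsupp.single i 1 : ι →₀ ℕ) j = 1 := by
          rw [Finset.sum_eq_single i]
          · simp
          · intro j _ hj
            rw [Finsupp.single_apply, if_neg (Ne.symm hj)]
          · intro h; exact absurd hi h
        omega
    · rw [coeff_sum, Finset.sum_eq_single i]
      · rw [coeff_X, if_pos rfl]; exact one_ne_zero
      · intro j _ hj
        rw [coeff_X, if_neg]
        intro h
        exact hj (Finsupp.single_left_injective one_ne_zero h)
      · intro h; exact absurd hi h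

theorem SPN_prod (s : Finset κ) (P : κ → MvPolynomial ι ℕ) (mm : κ → ι →₀ ℕ)
    (h : ∀ k ∈ s, coeff (mm k) (P k) ≠ 0) : coeff (∑ k ∈ s, mm k) (∏ k ∈ s, P k) ≠ 0 := by
  induction s using Finset.induction_on with
  | empty =>
    rw [Finset.sum_empty, Finset.prod_empty, coeff_zero_one]
    exact one_ne_zero
  | insert a s ha ih =>
    rw [Finset.sum_insert ha, Finset.prod_insert ha]
    exact SPN_mul (h a (Finset.mem_insert_self a s))
      (ih fun k hk => h k (Finset.mem_insert_of_mem hk))

theorem SPN_coeff (c : ι → κ) (A : Finset ι) (d : κ → ℕ) (m : ι →₀ ℕ) (hm : m ∈ Mon c A d) :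
    coeff m (∏ k, (∑ j ∈ A.filter (fun j => c j = k), X j : MvPolynomial ι ℂ) ^ d k) ≠ 0 := by
  obtain ⟨h1, h2⟩ := hm
  have h3 : m = ∑ k, m.filter (fun i => c i = k) := by
    ext i
    rw [Finsupp.finsetSum_apply]
    simp [Finsupp.filter_apply]
  have h4 : coeff m (∏ k, (∑ j ∈ A.filter (fun j => c j = k), X j : MvPolynomial ι ℕ) ^ d k) ≠ 0 := by
    rw [h3]
    apply SPN_prod
    intro k _
    apply SPN_pow
    · intro i hi
      rw [Finsupp.filter_apply]
      split_ifs with h
      · apply h1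
        intro hA
        exact hi (Finset.mem_filter.2 ⟨hA, h⟩)
      · rfl
    · rw [← h2 k]
      rw [← Finset.sum_subset (s₁ := A.filter (fun j => c j = k))
        (s₂ := Finset.univ.filter (fun j => c j = k))]
      · refine Finset.sum_congr rfl fun i hi => ?_
        rw [Finsupp.filter_apply, if_pos (Finset.mem_filter.1 hi).2]
      · intro i hi
        exact Finset.mem_filter.2 ⟨Finset.mem_univ _, (Finset.mem_filter.1 hi).2⟩
      · intro i hi hi'
        apply h1
        intro hA
        exact hi' (Finset.mem_filter.2 ⟨hA, (Finset.mem_filter.1 hi).2⟩)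
  have h5 : (∏ k, (∑ j ∈ A.filter (fun j => c j = k), X j : MvPolynomial ι ℂ) ^ d k) =
      MvPolynomial.map (Nat.castRingHom ℂ)
        (∏ k, (∑ j ∈ A.filter (fun j => c j = k), X j : MvPolynomial ι ℕ) ^ d k) := by
    simp [map_prod, map_pow, map_sum]
  rw [h5, coeff_map]
  simpa using h4

theorem SPN_bind (μ : MvPolynomial ι ℂ →ₗ[ℂ] ℂ) (L : ι → ℂ) (G : MvPolynomial ι ℂ) :
    μ (bind₁ (fun j => C (L j) * X j) G) =
      eval L (∑ m ∈ G.support, monomial m (coeff m G * μ (monomial m 1))) := by
  conv_lhs => rw [G.as_sum]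
  rw [map_sum, map_sum, map_sum]
  refine Finset.sum_congr rfl fun m _ => ?_
  rw [bind₁_monomial, eval_monomial]
  have h1 : (C (coeff m G) * ∏ i ∈ m.support, (C (L i) * X i) ^ m i : MvPolynomial ι ℂ) =
      (coeff m G * m.prod fun n e => L n ^ e) • monomial m 1 := by
    have h2 : (monomial m (1 : ℂ)) = ∏ i ∈ m.support, (X i : MvPolynomial ι ℂ) ^ m i := by
      rw [monomial_eq]
      simp [Finsupp.prod]
    rw [h2, Finsupp.prod, smul_eq_C_mul, map_mul, map_prod]
    simp only [mul_pow, Finset.prod_mul_distrib, map_pow]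
    ring
  rw [h1, map_smul, smul_eq_mul]
  ring

theorem SPN_Lprod (c : ι → κ) (A : Finset ι) (d : κ → ℕ) (L : ι → ℂ) :
    Lprod c A d L = bind₁ (fun j => C (L j) * X j)
      (∏ k, (∑ j ∈ A.filter (fun j => c j = k), X j : MvPolynomial ι ℂ) ^ d k) := by
  unfold Lprod
  rw [map_prod]
  refine Finset.prod_congr rfl fun k _ => ?_
  rw [map_pow, map_sum]
  congr 1
  refine Finset.sum_congr rfl fun j _ => ?_
  rw [bind₁_X_right]

end

theorem SPN : SPN_stmt := by
  intro ι κ _ _ _ _ c A d μ hμ f hf
  set G : MvPolynomial ι ℂ :=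
    ∏ k, (∑ j ∈ A.filter (fun j => c j = k), X j : MvPolynomial ι ℂ) ^ d k with hG
  have hQ : (∑ m ∈ G.support, monomial m (coeff m G * μ (monomial m 1)) :
      MvPolynomial ι ℂ) = 0 := by
    apply MvPolynomial.funext
    intro L
    rw [map_zero, ← SPN_bind μ L G, hG, ← SPN_Lprod]
    exact hμ L
  have hm : ∀ m ∈ Mon c A d, μ (monomial m 1) = 0 := by
    intro m hm
    have h1 := SPN_coeff c A d m hm
    rw [← hG] at h1
    have h2 := congrArg (coeff m) hQ
    rw [coeff_sum, coeff_zero, Finset.sum_eq_single m] at h2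
    · rw [coeff_monomial, if_pos rfl] at h2
      exact (mul_eq_zero.1 h2).resolve_left h1
    · intro m' _ hne
      rw [coeff_monomial, if_neg hne]
    · intro h
      rw [MvPolynomial.notMem_support_iff] at h
      exact absurd h h1
  rw [f.as_sum, map_sum]
  apply Finset.sum_eq_zero
  intro m hms
  have h3 : m ∈ Mon c A d := mem_Sec.1 hf m (MvPolynomial.mem_support_iff.1 hms)
  have h4 : (monomial m (coeff m f) : MvPolynomial ι ℂ) = coeff m f • monomial m 1 := by
    rw [smul_monomial, smul_eq_mul, mul_one]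
  rw [h4, map_smul, hm m h3, smul_zero]

end Pool.Agent.SV
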